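import Pool.Agent.Lib.MP_5e5bb6_lc.X.AsmMain

/-!
# CSP({0,1}; 1IN3) is not expressible in choiceless polynomial time with counting
-/

namespace Pool.Agent.Results.MP_5e5bb6_lc.NotInCPTC

open MP5e5.X

/-- CSP({0,1}; 1IN3) is not expressible in CPT+C: no BGS machine with counting (program `M`)
decides it with a polynomial bound `p` on the number of steps and a polynomial bound `q` on the
number of active objects.  More generally, no machine decides it with any bound `t` on the number
of steps and a bound `q` on the number of active objects such that `(C (1 + log₂ q(n))) ^ 9 ≤ n`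
for every `C` and all large `n`. -/
theorem result :
    (∀ (M : Rule) (p q : Polynomial ℕ), ¬ MDecides M (fun n => (p.eval n : ℕ)) (fun n => q.eval n)) ∧
    ∀ (M : Rule) (t : ℕ → ℕ∞) (q : ℕ → ℕ),
      (∀ C : ℕ, ∀ᶠ n in Filter.atTop, (C * (1 + Nat.log 2 (q n))) ^ 9 ≤ n) → ¬ MDecides M t q :=
  ⟨fun M _ q => mainM_poly M _ q, mainM⟩

end Pool.Agent.Results.MP_5e5bb6_lc.NotInCPTC
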